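import Pool.Agent.Helper1_CP3.Final

/-!
Domains of `ℂℙ³` covering compact complex threefolds, with complement of finite two-dimensional
Hausdorff measure: every connected component of the complement is a line.

Sketch of the proof.  Write `Λ` for the complement of `D`; it has Hausdorff dimension at most two.
(1) Generic lines of `ℂℙ³` miss `Λ`; a biholomorphism `g` of `D` has local homogeneous lifts `H`
    with `det DH = 1`, unique up to a fourth root of unity, and by Liouville's theorem their fourth
    powers are fourth powers of affine functions along the lines contained in `D`; hence the lifts
    are linear and `g` is projective.
(2) For a divergent sequence in `Γ` the ratio of the third to the second singular value tends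
    to zero, and the attracting and the repelling line are contained in `Λ`: otherwise `Λ` would
    contain an open piece of a plane.
(3) `Λ` contains only finitely many lines as its area is finite; by cocompactness it is the union
    of the attracting lines.
(4) Two of these lines cannot meet: the type of `γ ∈ Γ`, the line of `Λ` closest to `γ ℓ₀` for a
    fixed line `ℓ₀ ⊆ D`, is locally constant near `Λ`, and a ball minus finitely many lines
    is connected.
The definitions are in `Pool/Agent/Helper1_CP3/Defs.lean`.
-/

set_option autoImplicit false

open scoped LinearAlgebra.Projectivization Topology
open MeasureTheory

namespace Pool.Agent.Results.MP_f8eefe_an.ComponentsAreLines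

open Pool.Agent.Helper1_CP3

/-- If a domain `D ⊆ ℂℙ³` covers a compact complex threefold and its complement `Λ` has finite
two-dimensional Hausdorff measure, then every connected component of `Λ` is a (complex projective)
line. -/
theorem result : ∀ D : Set CP3, IsOpen D → IsConnected D → Covers D → μH[2] (Dᶜ) < ⊤ →
    ∀ x ∈ Dᶜ, IsLine (connectedComponentIn (Dᶜ) x) :=
  fun _ hD hc hcov h2 => main hD hc hcov h2

end Pool.Agent.Results.MP_f8eefe_an.ComponentsAreLines
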